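import Mathlib

set_option autoImplicit false

namespace Pool.Agent.H808R3.RD

/-- `L` is a length function on the group `G`. -/
structure IsLength {G : Type} [Group G] (L : G → ℝ) : Prop where
  nonneg : ∀ g, 0 ≤ L g
  one : L 1 = 0
  inv : ∀ g, L g⁻¹ = L g
  mul_le : ∀ g h, L (g * h) ≤ L g + L h

/-- Convolution `(φ * ψ)(g) = ∑_h φ(h) ψ(h⁻¹ g)`. -/
noncomputable def conv {G : Type} [Group G] (φ ψ : G → ℂ) (g : G) : ℂ :=
  ∑' h : G, φ h * ψ (h⁻¹ * g)

/-- The closed ball of radius `r`. -/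
def ball {G : Type} (L : G → ℝ) (r : ℝ) : Set G := {g | L g ≤ r}

/-- Property RD: there is a polynomial `P` such that for all `r > 0`, all `φ` supported in the
ball of radius `r` and square summable, and all square summable `ψ`, the convolution is square
summable and `‖φ * ψ‖² ≤ P(r) ‖φ‖² ‖ψ‖²`. -/
def PropertyRD {G : Type} [Group G] (L : G → ℝ) : Prop :=
  ∃ P : Polynomial ℝ, ∀ r : ℝ, 0 < r → ∀ φ ψ : G → ℂ,
    (∀ g, φ g ≠ 0 → g ∈ ball L r) →
    Summable (fun g => ‖φ g‖ ^ 2) → Summable (fun g => ‖ψ g‖ ^ 2) →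
    Summable (fun g => ‖conv φ ψ g‖ ^ 2) ∧
      ∑' g, ‖conv φ ψ g‖ ^ 2 ≤ P.eval r * (∑' g, ‖φ g‖ ^ 2) * ∑' g, ‖ψ g‖ ^ 2

open Classical in
/-- The number of pairs `(s, x) ∈ S × X` with `s x = g`. -/
noncomputable def reps {G : Type} [Group G] (S X : Finset G) (g : G) : ℕ :=
  ((S ×ˢ X).filter (fun p => p.1 * p.2 = g)).card

/-- The indicator condition: there is a polynomial `P` such that
`∑_g n_g² ≤ P(r) |S| |X|` for all `r > 0` and all finite `S ⊆ B(r)` and `X ⊆ G`, where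
`n_g` is the number of pairs `(s, x) ∈ S × X` with `s x = g`. -/
def IndicatorCondition {G : Type} [Group G] (L : G → ℝ) : Prop :=
  ∃ P : Polynomial ℝ, ∀ r : ℝ, 0 < r → ∀ S X : Finset G, (∀ s ∈ S, s ∈ ball L r) →
    ∑' g : G, (reps S X g : ℝ) ^ 2 ≤ P.eval r * S.card * X.card

/-- Balls are finite with at most `exp(Q(r))` elements, for some polynomial `Q`. -/
def ExpPolyGrowth {G : Type} (L : G → ℝ) : Prop :=
  ∃ Q : Polynomial ℝ, ∀ r : ℝ, 0 < r →
    (ball L r).Finite ∧ ((ball L r).ncard : ℝ) ≤ Real.exp (Q.eval r)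

/-- Word length on `G` with respect to the finite set `T`: the least `n` such that `g` is a
product of a list of `n` elements of `T` and inverses of elements of `T` (used for generating
sets `T`). -/
noncomputable def wordLen {G : Type} [Group G] (T : Finset G) (g : G) : ℝ :=
  ((sInf {n : ℕ | ∃ l : List G, (∀ x ∈ l, x ∈ T ∨ x⁻¹ ∈ T) ∧ l.prod = g ∧ l.length = n} : ℕ) : ℝ)

end Pool.Agent.H808R3.RD
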