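import Pool.Agent.H808R3.RD.Main

set_option autoImplicit false

namespace Pool.Agent.H808R3.RD

open Finset

variable {G : Type} [Group G]

open Classical in
lemma reps_eq (S X : Finset G) (g : G) :
    reps S X g = (S.filter (fun s => s⁻¹ * g ∈ X)).card := by
  unfold reps
  refine Finset.card_bij (fun p _ => p.1) ?_ ?_ ?_
  · rintro ⟨s, x⟩ hp
    simp only [Finset.mem_filter, Finset.mem_product] at hp ⊢
    obtain ⟨⟨h1, h2⟩, h3⟩ := hp
    refine ⟨h1, ?_⟩
    rw [← h3]; simpa using h2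
  · rintro ⟨s, x⟩ hp ⟨s', x'⟩ hp' h
    simp only [Finset.mem_filter, Finset.mem_product] at hp hp' h
    obtain ⟨_, h3⟩ := hp
    obtain ⟨_, h3'⟩ := hp'
    subst h
    have : s * x = s * x' := by rw [h3, h3']
    rw [mul_left_cancel this]
  · intro s hs
    simp only [Finset.mem_filter] at hs
    refine ⟨(s, s⁻¹ * g), ?_, rfl⟩
    simp only [Finset.mem_filter, Finset.mem_product]
    exact ⟨⟨hs.1, hs.2⟩, by group⟩

lemma reps_summable (S X : Finset G) : Summable (fun g => (reps S X g : ℝ) ^ 2) := by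
  classical
  apply summable_of_ne_finset_zero (s := (S ×ˢ X).image (fun p => p.1 * p.2))
  intro g hg
  have : reps S X g = 0 := by
    unfold reps
    rw [Finset.card_eq_zero, Finset.filter_eq_empty_iff]
    intro p hp hpg
    exact hg (Finset.mem_image.2 ⟨p, hp, hpg⟩)
  rw [this]; norm_num

lemma indBound_of (L : G → ℝ) (P : Polynomial ℝ)
    (hP : ∀ r : ℝ, 0 < r → ∀ S X : Finset G, (∀ s ∈ S, s ∈ ball L r) →
    ∑' g : G, (reps S X g : ℝ) ^ 2 ≤ P.eval r * S.card * X.card) (r : ℝ) (hr : 0 < r)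
    (S : Finset G) (hS : ∀ s ∈ S, s ∈ ball L r) : IndBound S (P.eval r) := by
  classical
  intro X F
  refine le_trans ?_ (hP r hr S X hS)
  have h := (reps_summable S X).sum_le_tsum F (fun _ _ => sq_nonneg _)
  refine le_trans (le_of_eq ?_) h
  refine Finset.sum_congr rfl fun g _ => ?_
  rw [reps_eq]

theorem rd_of_indicator (L : G → ℝ) (hL : IsLength L) (hg : ExpPolyGrowth L)
    (hI : IndicatorCondition L) : PropertyRD L := by
  classical
  obtain ⟨Q, hQ⟩ := hg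
  obtain ⟨P, hP⟩ := hI
  refine ⟨Polynomial.C 60 * (Polynomial.C (1 / Real.log 2) * Q + Polynomial.C 3) *
    (Polynomial.C (1 / Real.log 2) * Q + Polynomial.C 4) * P, ?_⟩
  intro r hr φ ψ hφ hφs hψs
  obtain ⟨hfin, hcard⟩ := hQ r hr
  set S : Finset G := hfin.toFinset with hS
  have hmemS : ∀ g, g ∈ S ↔ g ∈ ball L r := fun g => by rw [hS, Set.Finite.mem_toFinset]
  have hScard : (S.card : ℝ) ≤ Real.exp (Q.eval r) := by
    rw [Set.ncard_eq_toFinset_card _ hfin] at hcard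
    exact hcard
  have h1S : (1 : G) ∈ S := by
    rw [hmemS]
    show L 1 ≤ r
    rw [hL.one]; exact hr.le
  have hSpos : (1 : ℝ) ≤ S.card := by
    have : 0 < S.card := Finset.card_pos.2 ⟨1, h1S⟩
    exact_mod_cast this
  have hQ0 : 0 ≤ Q.eval r := by
    have : (1 : ℝ) ≤ Real.exp (Q.eval r) := hSpos.trans hScard
    exact Real.one_le_exp_iff.1 this
  have hlog : 0 < Real.log 2 := Real.log_pos (by norm_num)
  set M : ℕ := ⌈Q.eval r / Real.log 2⌉₊ with hM
  have hM1 : Q.eval r / Real.log 2 ≤ M := Nat.le_ceil _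
  have hM2 : (M : ℝ) ≤ Q.eval r / Real.log 2 + 1 := (Nat.ceil_lt_add_one (by positivity)).le
  have hSM : S.card ≤ 2 ^ M := by
    have h1 : Real.exp (Q.eval r) ≤ (2 : ℝ) ^ M := by
      have h2 : Q.eval r ≤ M * Real.log 2 := by
        rw [div_le_iff₀ hlog] at hM1; exact hM1
      calc Real.exp (Q.eval r) ≤ Real.exp (M * Real.log 2) := Real.exp_le_exp.2 h2
        _ = (2 : ℝ) ^ M := by
          rw [mul_comm, Real.exp_mul, Real.exp_log (by norm_num), Real.rpow_natCast]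
    have h3 := hScard.trans h1
    exact_mod_cast h3
  have hP1 : 1 ≤ P.eval r := by
    have h := hP r hr {1} {1} (by
      intro s hs
      rw [Finset.mem_singleton] at hs
      subst hs
      exact (hmemS 1).1 h1S)
    have h2 := (reps_summable ({1} : Finset G) {1}).sum_le_tsum {1} (fun _ _ => sq_nonneg _)
    have h3 : reps ({1} : Finset G) {1} 1 = 1 := by
      rw [reps_eq]; simp [Finset.filter_singleton]
    rw [Finset.sum_singleton, h3] at h2
    have h4 := h2.trans h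
    simpa using h4
  set C : ℝ := 60 * (M + 2 : ℝ) * (M + 3 : ℝ) * P.eval r with hC
  have hsubB : ∀ S' ⊆ S, IndBound S' (P.eval r) := fun S' hS' =>
    indBound_of L P hP r hr S' (fun s hs => (hmemS s).1 (hS' hs))
  set nφ : ℝ := ∑' g, ‖φ g‖ ^ 2
  set nψ : ℝ := ∑' g, ‖ψ g‖ ^ 2
  have hφle : ∑ s ∈ S, ‖φ s‖ ^ 2 ≤ nφ := hφs.sum_le_tsum S (fun _ _ => sq_nonneg _)
  have hψ0 : 0 ≤ nψ := tsum_nonneg fun _ => sq_nonneg _
  have hφ0 : 0 ≤ nφ := tsum_nonneg fun _ => sq_nonneg _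
  have hM0 : (0 : ℝ) ≤ M := Nat.cast_nonneg M
  have hC0 : 0 ≤ C := by positivity
  have hconv : ∀ g, conv φ ψ g = ∑ s ∈ S, φ s * ψ (s⁻¹ * g) := by
    intro g
    unfold conv
    apply tsum_eq_sum
    intro s hs
    have : φ s = 0 := by
      by_contra hc
      exact hs ((hmemS s).2 (hφ s hc))
    rw [this, zero_mul]
  have key : ∀ F : Finset G, ∑ g ∈ F, ‖conv φ ψ g‖ ^ 2 ≤ C * nφ * nψ := by
    intro F
    set Y : Finset G := (S ×ˢ F).image (fun p => p.1⁻¹ * p.2) with hY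
    set ψ' : G → ℝ := fun x => if x ∈ Y then ‖ψ x‖ else 0 with hψ'
    have h1 : ∀ g ∈ F, ‖conv φ ψ g‖ ^ 2 ≤ (∑ s ∈ S, ‖φ s‖ * ψ' (s⁻¹ * g)) ^ 2 := by
      intro g hgF
      refine pow_le_pow_left₀ (norm_nonneg _) ?_ 2
      rw [hconv g]
      refine (norm_sum_le _ _).trans (le_of_eq ?_)
      refine Finset.sum_congr rfl fun s hs => ?_
      rw [norm_mul]
      congr 1
      have : s⁻¹ * g ∈ Y := Finset.mem_image.2 ⟨(s, g), Finset.mem_product.2 ⟨hs, hgF⟩, rfl⟩
      simp only [hψ', if_pos this]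
    have h2 := step2 S M hSM (P.eval r) (by linarith) hsubB (fun g => ‖φ g‖)
      (fun _ => norm_nonneg _) ψ' (fun g => by simp only [hψ']; split_ifs <;> simp) Y
      (fun g hgY => by simp only [hψ', if_neg hgY]) F
    have h3 : ∑ x ∈ Y, ψ' x ^ 2 ≤ nψ := by
      refine le_trans (le_of_eq ?_) (hψs.sum_le_tsum Y (fun _ _ => sq_nonneg _))
      refine Finset.sum_congr rfl fun x hx => ?_
      simp only [hψ', if_pos hx]
    have h4 : 0 ≤ ∑ x ∈ Y, ψ' x ^ 2 := Finset.sum_nonneg fun _ _ => sq_nonneg _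
    have h5 : 0 ≤ ∑ s ∈ S, ‖φ s‖ ^ 2 := Finset.sum_nonneg fun _ _ => sq_nonneg _
    calc ∑ g ∈ F, ‖conv φ ψ g‖ ^ 2 ≤ ∑ g ∈ F, (∑ s ∈ S, ‖φ s‖ * ψ' (s⁻¹ * g)) ^ 2 :=
          Finset.sum_le_sum h1
      _ ≤ C * (∑ s ∈ S, ‖φ s‖ ^ 2) * ∑ x ∈ Y, ψ' x ^ 2 := h2
      _ ≤ C * nφ * nψ := by
          refine mul_le_mul (mul_le_mul_of_nonneg_left hφle hC0) h3 h4 (by positivity)
  refine ⟨summable_of_sum_le (fun _ => sq_nonneg _) key, ?_⟩
  have hts : ∑' g, ‖conv φ ψ g‖ ^ 2 ≤ C * nφ * nψ :=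
    Real.tsum_le_of_sum_le (fun _ => sq_nonneg _) key
  refine hts.trans ?_
  have hCle : C ≤ (Polynomial.C 60 * (Polynomial.C (1 / Real.log 2) * Q + Polynomial.C 3) *
    (Polynomial.C (1 / Real.log 2) * Q + Polynomial.C 4) * P).eval r := by
    simp only [Polynomial.eval_mul, Polynomial.eval_add, Polynomial.eval_C]
    rw [hC]
    have e : 1 / Real.log 2 * Polynomial.eval r Q = Q.eval r / Real.log 2 := by ring
    rw [e]
    have h1 : (M + 2 : ℝ) ≤ Q.eval r / Real.log 2 + 3 := by linarith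
    have h2 : (M + 3 : ℝ) ≤ Q.eval r / Real.log 2 + 4 := by linarith
    have h3 : (60 : ℝ) * (M + 2 : ℝ) ≤ 60 * (Q.eval r / Real.log 2 + 3) := by linarith
    refine mul_le_mul_of_nonneg_right ?_ (by linarith)
    exact mul_le_mul h3 h2 (by positivity) (by positivity)
  exact mul_le_mul_of_nonneg_right (mul_le_mul_of_nonneg_right hCle hφ0) hψ0

/-- The trivial direction. -/
theorem indicator_of_rd (L : G → ℝ) (hRD : PropertyRD L) : IndicatorCondition L := by
  classical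
  obtain ⟨P, hP⟩ := hRD
  refine ⟨P, fun r hr S X hS => ?_⟩
  set φ : G → ℂ := fun g => if g ∈ S then 1 else 0 with hφ
  set ψ : G → ℂ := fun g => if g ∈ X then 1 else 0 with hψ
  have hind : ∀ (Z : Finset G), HasSum (fun g => ‖(if g ∈ Z then (1 : ℂ) else 0)‖ ^ 2) (Z.card : ℝ) := by
    intro Z
    have h1 : ∀ g, g ∉ Z → ‖(if g ∈ Z then (1 : ℂ) else 0)‖ ^ 2 = 0 := by
      intro g hg; simp [hg]
    have h2 : HasSum (fun g => ‖(if g ∈ Z then (1 : ℂ) else 0)‖ ^ 2)
        (∑ g ∈ Z, ‖(if g ∈ Z then (1 : ℂ) else 0)‖ ^ 2) := hasSum_sum_of_ne_finset_zero h1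
    have h3 : ∑ g ∈ Z, ‖(if g ∈ Z then (1 : ℂ) else 0)‖ ^ 2 = (Z.card : ℝ) := by
      rw [Finset.sum_congr rfl (g := fun _ => (1 : ℝ)) (fun g hg => by simp [hg])]
      simp
    rw [h3] at h2
    exact h2
  have h := hP r hr φ ψ (fun g hg => by
    apply hS
    by_contra hc
    exact hg (by simp [hφ, hc])) (hind S).summable (hind X).summable
  have hc : ∀ g, conv φ ψ g = (reps S X g : ℂ) := by
    intro g
    unfold conv
    rw [tsum_eq_sum (s := S) (fun s hs => by simp [hφ, hs]), reps_eq, Finset.card_filter]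
    push_cast
    refine Finset.sum_congr rfl fun s hs => ?_
    simp only [hφ, hψ, if_pos hs, one_mul]
  have h2 := h.2
  rw [(hind S).tsum_eq, (hind X).tsum_eq] at h2
  refine le_trans (le_of_eq ?_) h2
  refine tsum_congr fun g => ?_
  rw [hc g, Complex.norm_natCast]

end Pool.Agent.H808R3.RD
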