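import Mathlib

set_option autoImplicit false

namespace Pool.Agent.H808R3.RD

open Finset

/-- dyadic level of a real number -/
noncomputable def lev (a : ℝ) : ℤ := Int.log 2 a

lemma lev_le {a : ℝ} (ha : 0 < a) : (2 : ℝ) ^ lev a ≤ a := by
  have := Int.zpow_log_le_self (b := 2) (by norm_num) ha
  simpa [lev] using this

lemma lt_lev {a : ℝ} : a < (2 : ℝ) ^ (lev a + 1) := by
  have := Int.lt_zpow_succ_log_self (b := 2) (by norm_num) a
  simpa [lev] using this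

lemma lev_mono {a b : ℝ} (ha : 0 < a) (h : a ≤ b) : lev a ≤ lev b := by
  unfold lev
  exact Int.log_mono_right ha h

/-- Cauchy-Schwarz for a sum of `m` terms -/
lemma sq_sum_le {ι : Type} (t : Finset ι) (f : ι → ℝ) (m : ℕ) (hm : t.card ≤ m) :
    (∑ i ∈ t, f i) ^ 2 ≤ (m : ℝ) * ∑ i ∈ t, f i ^ 2 := by
  have h := sq_sum_le_card_mul_sum_sq (s := t) (f := f)
  have h2 : 0 ≤ ∑ i ∈ t, f i ^ 2 := Finset.sum_nonneg fun i _ => sq_nonneg _
  have h3 : (t.card : ℝ) ≤ m := by exact_mod_cast hm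
  nlinarith

/-- Dyadic grouping of a sum of at most `2^M` nonnegative numbers. -/
lemma group_levels {ι : Type} (S : Finset ι) (a : ι → ℝ) (ha : ∀ i ∈ S, 0 ≤ a i) (M : ℕ)
    (hM : S.card ≤ 2 ^ M) (J : Finset ℤ) (hJ : ∀ i ∈ S, a i ≠ 0 → lev (a i) ∈ J) :
    (∑ i ∈ S, a i) ^ 2 ≤ (3 * (M + 3 : ℝ)) *
      ∑ j ∈ J, (∑ i ∈ S.filter (fun i => a i ≠ 0 ∧ lev (a i) = j), a i) ^ 2 := by
  classical
  set T : Finset ι := S.filter (fun i => a i ≠ 0) with hT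
  have hsum : ∑ i ∈ S, a i = ∑ i ∈ T, a i := by
    rw [hT, Finset.sum_filter]
    refine Finset.sum_congr rfl fun i _ => ?_
    by_cases h : a i = 0 <;> simp [h]
  have hRHS : 0 ≤ ∑ j ∈ J, (∑ i ∈ S.filter (fun i => a i ≠ 0 ∧ lev (a i) = j), a i) ^ 2 :=
    Finset.sum_nonneg fun i _ => sq_nonneg _
  have hM0 : (0 : ℝ) ≤ M := Nat.cast_nonneg M
  rcases T.eq_empty_or_nonempty with hTe | hTne
  · rw [hsum, hTe]
    have h3 : (0 : ℝ) ≤ 3 * (M + 3 : ℝ) := by positivity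
    have h4 := mul_nonneg h3 hRHS
    simpa using h4
  obtain ⟨i0, hi0, hmax⟩ := T.exists_max_image a hTne
  have hi0S : i0 ∈ S := (Finset.mem_filter.1 hi0).1
  have hi0n : a i0 ≠ 0 := (Finset.mem_filter.1 hi0).2
  have hi0p : 0 < a i0 := lt_of_le_of_ne (ha i0 hi0S) (Ne.symm hi0n)
  set j0 : ℤ := lev (a i0) with hj0
  have hTpos : ∀ i ∈ T, 0 < a i := fun i hi =>
    lt_of_le_of_ne (ha i (Finset.mem_filter.1 hi).1) (Ne.symm (Finset.mem_filter.1 hi).2)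
  have hlev : ∀ i ∈ T, lev (a i) ≤ j0 := fun i hi => lev_mono (hTpos i hi) (hmax i hi)
  -- group sums
  set g : ℤ → ℝ := fun j => ∑ i ∈ S.filter (fun i => a i ≠ 0 ∧ lev (a i) = j), a i with hg
  have hg0 : ∀ j, 0 ≤ g j := fun j => Finset.sum_nonneg fun i hi => ha i (Finset.mem_filter.1 hi).1
  -- split into high and low levels
  set K : Finset ℤ := Finset.Icc (j0 - M) j0 with hK
  have hKc : K.card = M + 1 := by
    rw [hK, Int.card_Icc]; omega
  have hsplit : ∑ i ∈ T, a i = ∑ i ∈ T.filter (fun i => lev (a i) ∈ K), a i +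
      ∑ i ∈ T.filter (fun i => ¬ lev (a i) ∈ K), a i :=
    (Finset.sum_filter_add_sum_filter_not T _ a).symm
  have hhigh : ∑ i ∈ T.filter (fun i => lev (a i) ∈ K), a i = ∑ j ∈ K, g j := by
    rw [← Finset.sum_fiberwise_of_maps_to (s := T.filter (fun i => lev (a i) ∈ K)) (t := K)
      (g := fun i => lev (a i)) (fun i hi => (Finset.mem_filter.1 hi).2)]
    refine Finset.sum_congr rfl fun j hj => ?_
    rw [hg]
    refine Finset.sum_congr ?_ fun _ _ => rfl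
    ext i
    simp only [hT, Finset.mem_filter]
    constructor
    · rintro ⟨⟨⟨h1, h2⟩, h3⟩, h4⟩
      exact ⟨h1, h2, h4⟩
    · rintro ⟨h1, h2, h3⟩
      exact ⟨⟨⟨h1, h2⟩, by rw [h3]; exact hj⟩, h3⟩
  have hgj0 : (2 : ℝ) ^ j0 ≤ g j0 := by
    refine (lev_le hi0p).trans ?_
    rw [hg]
    refine Finset.single_le_sum (f := a) (fun i hi => ha i (Finset.mem_filter.1 hi).1) ?_
    exact Finset.mem_filter.2 ⟨hi0S, hi0n, rfl⟩
  have hlow : ∑ i ∈ T.filter (fun i => ¬ lev (a i) ∈ K), a i ≤ g j0 := by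
    have h1 : ∀ i ∈ T.filter (fun i => ¬ lev (a i) ∈ K), a i ≤ (2 : ℝ) ^ (j0 - M) := by
      intro i hi
      obtain ⟨hiT, hiK⟩ := Finset.mem_filter.1 hi
      have h2 := hlev i hiT
      have h3 : lev (a i) + 1 ≤ j0 - M := by
        rw [hK, Finset.mem_Icc] at hiK
        by_contra hc
        exact hiK ⟨by omega, h2⟩
      exact lt_lev.le.trans (zpow_le_zpow_right₀ (by norm_num) h3)
    have h2 : ((T.filter (fun i => ¬ lev (a i) ∈ K)).card : ℝ) ≤ (2 : ℝ) ^ (M : ℤ) := by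
      have : (T.filter (fun i => ¬ lev (a i) ∈ K)).card ≤ 2 ^ M :=
        (Finset.card_le_card ((Finset.filter_subset _ _).trans (Finset.filter_subset _ _))).trans hM
      rw [zpow_natCast]
      exact_mod_cast this
    calc ∑ i ∈ T.filter (fun i => ¬ lev (a i) ∈ K), a i
        ≤ ∑ _i ∈ T.filter (fun i => ¬ lev (a i) ∈ K), (2 : ℝ) ^ (j0 - M) := Finset.sum_le_sum h1
      _ = ((T.filter (fun i => ¬ lev (a i) ∈ K)).card : ℝ) * (2 : ℝ) ^ (j0 - M) := by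
          rw [Finset.sum_const, nsmul_eq_mul]
      _ ≤ (2 : ℝ) ^ (M : ℤ) * (2 : ℝ) ^ (j0 - M) := by gcongr
      _ = (2 : ℝ) ^ j0 := by
          rw [← zpow_add₀ (by norm_num)]; congr 1; ring
      _ ≤ g j0 := hgj0
  -- conclude
  have hj0J : j0 ∈ J := hJ i0 hi0S hi0n
  have hKJ : ∑ j ∈ K, g j ^ 2 ≤ ∑ j ∈ J, g j ^ 2 := by
    have h1 : ∑ j ∈ K, g j ^ 2 = ∑ j ∈ K.filter (fun j => j ∈ J), g j ^ 2 := by
      symm
      apply Finset.sum_filter_of_ne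
      intro j _ hne
      by_contra hnj
      apply hne
      have : g j = 0 := by
        rw [hg]
        apply Finset.sum_eq_zero
        intro i hi
        obtain ⟨h1, h2, h3⟩ := Finset.mem_filter.1 hi
        exact absurd (h3 ▸ hJ i h1 h2) hnj
      rw [this]; norm_num
    rw [h1]
    exact Finset.sum_le_sum_of_subset_of_nonneg
      (fun j hj => (Finset.mem_filter.1 hj).2) (fun _ _ _ => sq_nonneg _)
  have hone : g j0 ^ 2 ≤ ∑ j ∈ J, g j ^ 2 :=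
    Finset.single_le_sum (f := fun j => g j ^ 2) (fun _ _ => sq_nonneg _) hj0J
  have hC := sq_sum_le K g (M + 1) hKc.le
  push_cast at hC
  rw [hsum, hsplit, hhigh]
  have hA : 0 ≤ ∑ j ∈ K, g j := Finset.sum_nonneg fun j _ => hg0 j
  have hB : 0 ≤ ∑ i ∈ T.filter (fun i => ¬ lev (a i) ∈ K), a i :=
    Finset.sum_nonneg fun i hi => (hTpos i (Finset.mem_filter.1 hi).1).le
  have h5 : (∑ j ∈ K, g j + ∑ i ∈ T.filter (fun i => ¬ lev (a i) ∈ K), a i) ^ 2 ≤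
      2 * (∑ j ∈ K, g j) ^ 2 + 2 * (g j0) ^ 2 := by
    have h6 : (∑ i ∈ T.filter (fun i => ¬ lev (a i) ∈ K), a i) ^ 2 ≤ (g j0) ^ 2 :=
      pow_le_pow_left₀ hB hlow 2
    nlinarith [sq_nonneg (∑ j ∈ K, g j - ∑ i ∈ T.filter (fun i => ¬ lev (a i) ∈ K), a i)]
  have h7 : ((M : ℝ) + 1) * ∑ j ∈ K, g j ^ 2 ≤ ((M : ℝ) + 1) * ∑ j ∈ J, g j ^ 2 := by gcongr
  nlinarith

end Pool.Agent.H808R3.RD
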