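import Pool.Agent.H808R3.RD.Lev
import Pool.Agent.H808R3.RD.Defs

set_option autoImplicit false

namespace Pool.Agent.H808R3.RD

open Finset

variable {G : Type} [Group G]

open Classical in
/-- The indicator bound on a finite set with constant `A`. -/
def IndBound (S : Finset G) (A : ℝ) : Prop :=
  ∀ X F : Finset G, ∑ g ∈ F, ((S.filter (fun s => s⁻¹ * g ∈ X)).card : ℝ) ^ 2 ≤ A * S.card * X.card

lemma step1 (S : Finset G) (M : ℕ) (hM : S.card ≤ 2 ^ M) (A : ℝ) (hA : IndBound S A)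
    (ψ : G → ℝ) (hψ : ∀ g, 0 ≤ ψ g) (Y : Finset G) (hY : ∀ g, g ∉ Y → ψ g = 0) (F : Finset G) :
    ∑ g ∈ F, (∑ s ∈ S, ψ (s⁻¹ * g)) ^ 2 ≤
      12 * (M + 3 : ℝ) * A * S.card * ∑ x ∈ Y, ψ x ^ 2 := by
  classical
  have hM0 : (0 : ℝ) ≤ M := Nat.cast_nonneg M
  set J : Finset ℤ := Y.image (fun x => lev (ψ x)) with hJ
  set X : ℤ → Finset G := fun j => Y.filter (fun x => ψ x ≠ 0 ∧ lev (ψ x) = j) with hX
  -- pointwise bound
  have hpt : ∀ g ∈ F, (∑ s ∈ S, ψ (s⁻¹ * g)) ^ 2 ≤ (3 * (M + 3 : ℝ)) *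
      ∑ j ∈ J, ((2 : ℝ) ^ (j + 1)) ^ 2 * ((S.filter (fun s => s⁻¹ * g ∈ X j)).card : ℝ) ^ 2 := by
    intro g _
    refine (group_levels S (fun s => ψ (s⁻¹ * g)) (fun s _ => hψ _) M hM J ?_).trans ?_
    · intro s _ hne
      refine Finset.mem_image.2 ⟨s⁻¹ * g, ?_, rfl⟩
      by_contra hc
      exact hne (hY _ hc)
    · refine mul_le_mul_of_nonneg_left ?_ (by positivity)
      refine Finset.sum_le_sum fun j _ => ?_
      rw [← mul_pow]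
      refine pow_le_pow_left₀ (Finset.sum_nonneg fun i _ => hψ _) ?_ 2
      have hsub : S.filter (fun s => ψ (s⁻¹ * g) ≠ 0 ∧ lev (ψ (s⁻¹ * g)) = j) ⊆
          S.filter (fun s => s⁻¹ * g ∈ X j) := by
        intro s hs
        obtain ⟨h1, h2, h3⟩ := Finset.mem_filter.1 hs
        refine Finset.mem_filter.2 ⟨h1, Finset.mem_filter.2 ⟨?_, h2, h3⟩⟩
        by_contra hc
        exact h2 (hY _ hc)
      calc ∑ s ∈ S.filter (fun s => ψ (s⁻¹ * g) ≠ 0 ∧ lev (ψ (s⁻¹ * g)) = j), ψ (s⁻¹ * g)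
          ≤ ∑ _s ∈ S.filter (fun s => ψ (s⁻¹ * g) ≠ 0 ∧ lev (ψ (s⁻¹ * g)) = j), (2 : ℝ) ^ (j + 1) := by
            refine Finset.sum_le_sum fun s hs => ?_
            have h3 := (Finset.mem_filter.1 hs).2.2
            have h4 : ψ (s⁻¹ * g) < (2 : ℝ) ^ (lev (ψ (s⁻¹ * g)) + 1) := lt_lev
            rw [h3] at h4
            exact h4.le
        _ = ((S.filter (fun s => ψ (s⁻¹ * g) ≠ 0 ∧ lev (ψ (s⁻¹ * g)) = j)).card : ℝ) *
              (2 : ℝ) ^ (j + 1) := by rw [Finset.sum_const, nsmul_eq_mul]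
        _ ≤ ((S.filter (fun s => s⁻¹ * g ∈ X j)).card : ℝ) * (2 : ℝ) ^ (j + 1) := by
            have := Finset.card_le_card hsub
            have h5 : ((S.filter (fun s => ψ (s⁻¹ * g) ≠ 0 ∧ lev (ψ (s⁻¹ * g)) = j)).card : ℝ) ≤
              ((S.filter (fun s => s⁻¹ * g ∈ X j)).card : ℝ) := by exact_mod_cast this
            gcongr
        _ = (2 : ℝ) ^ (j + 1) * ((S.filter (fun s => s⁻¹ * g ∈ X j)).card : ℝ) := by ring
  have hA0 : 0 ≤ A * S.card := by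
    have h1 := hA {1} ∅
    simpa using h1
  have hlevel : ∀ j ∈ J, (4 : ℝ) * ((2 : ℝ) ^ j) ^ 2 * (X j).card ≤ 4 * ∑ x ∈ X j, ψ x ^ 2 := by
    intro j _
    have : ∑ _x ∈ X j, ((2 : ℝ) ^ j) ^ 2 ≤ ∑ x ∈ X j, ψ x ^ 2 := by
      refine Finset.sum_le_sum fun x hx => ?_
      obtain ⟨_, h2, h3⟩ := Finset.mem_filter.1 hx
      have hpos : 0 < ψ x := lt_of_le_of_ne (hψ x) (Ne.symm h2)
      have := lev_le hpos
      rw [h3] at this
      exact pow_le_pow_left₀ (by positivity) this 2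
    rw [Finset.sum_const, nsmul_eq_mul] at this
    nlinarith
  have hfib : ∑ j ∈ J, ∑ x ∈ X j, ψ x ^ 2 ≤ ∑ x ∈ Y, ψ x ^ 2 := by
    have h1 : ∑ j ∈ J, ∑ x ∈ X j, ψ x ^ 2 ≤
        ∑ j ∈ J, ∑ x ∈ Y.filter (fun x => lev (ψ x) = j), ψ x ^ 2 := by
      refine Finset.sum_le_sum fun j _ => ?_
      refine Finset.sum_le_sum_of_subset_of_nonneg ?_ (fun _ _ _ => sq_nonneg _)
      intro x hx
      obtain ⟨h1, _, h3⟩ := Finset.mem_filter.1 hx
      exact Finset.mem_filter.2 ⟨h1, h3⟩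
    refine h1.trans (le_of_eq ?_)
    exact Finset.sum_fiberwise_of_maps_to (s := Y) (t := J) (g := fun x => lev (ψ x))
      (fun x hx => Finset.mem_image_of_mem _ hx) (fun x => ψ x ^ 2)
  calc ∑ g ∈ F, (∑ s ∈ S, ψ (s⁻¹ * g)) ^ 2
      ≤ ∑ g ∈ F, (3 * (M + 3 : ℝ)) *
      ∑ j ∈ J, ((2 : ℝ) ^ (j + 1)) ^ 2 * ((S.filter (fun s => s⁻¹ * g ∈ X j)).card : ℝ) ^ 2 :=
        Finset.sum_le_sum hpt
    _ = (3 * (M + 3 : ℝ)) * ∑ j ∈ J, ((2 : ℝ) ^ (j + 1)) ^ 2 *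
          ∑ g ∈ F, ((S.filter (fun s => s⁻¹ * g ∈ X j)).card : ℝ) ^ 2 := by
        rw [← Finset.mul_sum, Finset.sum_comm]
        congr 1
        refine Finset.sum_congr rfl fun j _ => ?_
        rw [Finset.mul_sum]
    _ ≤ (3 * (M + 3 : ℝ)) * ∑ j ∈ J, ((2 : ℝ) ^ (j + 1)) ^ 2 * (A * S.card * (X j).card) := by
        refine mul_le_mul_of_nonneg_left ?_ (by positivity)
        refine Finset.sum_le_sum fun j _ => ?_
        exact mul_le_mul_of_nonneg_left (hA (X j) F) (by positivity)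
    _ = (3 * (M + 3 : ℝ)) * (A * S.card) * ∑ j ∈ J, ((4 : ℝ) * ((2 : ℝ) ^ j) ^ 2 * (X j).card) := by
        rw [Finset.mul_sum, Finset.mul_sum]
        refine Finset.sum_congr rfl fun j _ => ?_
        rw [zpow_add₀ (by norm_num), zpow_one]
        ring
    _ ≤ (3 * (M + 3 : ℝ)) * (A * S.card) * ∑ j ∈ J, (4 * ∑ x ∈ X j, ψ x ^ 2) := by
        refine mul_le_mul_of_nonneg_left (Finset.sum_le_sum hlevel) ?_
        exact mul_nonneg (by positivity) hA0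
    _ = 12 * (M + 3 : ℝ) * A * S.card * ∑ j ∈ J, ∑ x ∈ X j, ψ x ^ 2 := by
        rw [← Finset.mul_sum]; ring
    _ ≤ 12 * (M + 3 : ℝ) * A * S.card * ∑ x ∈ Y, ψ x ^ 2 := by
        refine mul_le_mul_of_nonneg_left hfib ?_
        have : 12 * (M + 3 : ℝ) * A * S.card = 12 * (M + 3 : ℝ) * (A * S.card) := by ring
        rw [this]
        exact mul_nonneg (by positivity) hA0

/-- Step 2: weights on both sides. -/
lemma step2 (S : Finset G) (M : ℕ) (hM : S.card ≤ 2 ^ M) (A : ℝ) (hA0 : 0 ≤ A)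
    (hA : ∀ S' ⊆ S, IndBound S' A)
    (φ : G → ℝ) (hφ : ∀ g, 0 ≤ φ g)
    (ψ : G → ℝ) (hψ : ∀ g, 0 ≤ ψ g) (Y : Finset G) (hY : ∀ g, g ∉ Y → ψ g = 0) (F : Finset G) :
    ∑ g ∈ F, (∑ s ∈ S, φ s * ψ (s⁻¹ * g)) ^ 2 ≤
      60 * (M + 2 : ℝ) * (M + 3 : ℝ) * A * (∑ s ∈ S, φ s ^ 2) * ∑ x ∈ Y, ψ x ^ 2 := by
  classical
  have hM0 : (0 : ℝ) ≤ M := Nat.cast_nonneg M
  set N : ℝ := ∑ x ∈ Y, ψ x ^ 2 with hN
  have hN0 : 0 ≤ N := Finset.sum_nonneg fun _ _ => sq_nonneg _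
  set T : Finset G := S.filter (fun s => φ s ≠ 0) with hT
  rcases T.eq_empty_or_nonempty with hTe | hTne
  · have hz : ∀ s ∈ S, φ s = 0 := by
      intro s hs
      by_contra hc
      have : s ∈ T := Finset.mem_filter.2 ⟨hs, hc⟩
      rw [hTe] at this
      exact absurd this (Finset.notMem_empty _)
    have h0 : ∑ g ∈ F, (∑ s ∈ S, φ s * ψ (s⁻¹ * g)) ^ 2 = 0 := by
      refine Finset.sum_eq_zero fun g _ => ?_
      rw [Finset.sum_eq_zero (fun s hs => by rw [hz s hs, zero_mul])]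
      norm_num
    rw [h0]
    have h1 : 0 ≤ ∑ s ∈ S, φ s ^ 2 := Finset.sum_nonneg fun _ _ => sq_nonneg _
    positivity
  obtain ⟨s0, hs0, hmax⟩ := T.exists_max_image φ hTne
  have hs0S : s0 ∈ S := (Finset.mem_filter.1 hs0).1
  have hs0n : φ s0 ≠ 0 := (Finset.mem_filter.1 hs0).2
  have hs0p : 0 < φ s0 := lt_of_le_of_ne (hφ s0) (Ne.symm hs0n)
  set j0 : ℤ := lev (φ s0) with hj0
  have hTpos : ∀ s ∈ T, 0 < φ s := fun s hs =>
    lt_of_le_of_ne (hφ s) (Ne.symm (Finset.mem_filter.1 hs).2)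
  have hlev : ∀ s ∈ T, lev (φ s) ≤ j0 := fun s hs => lev_mono (hTpos s hs) (hmax s hs)
  set K : Finset ℤ := Finset.Icc (j0 - M) j0 with hK
  have hKc : K.card = M + 1 := by
    rw [hK, Int.card_Icc]; omega
  set SS : ℤ → Finset G := fun j => S.filter (fun s => φ s ≠ 0 ∧ lev (φ s) = j) with hSS
  -- the level convolutions
  set U : ℤ → G → ℝ := fun j g => (2 : ℝ) ^ (j + 1) * ∑ s ∈ SS j, ψ (s⁻¹ * g) with hU
  set V : G → ℝ := fun g => (2 : ℝ) ^ (j0 - M) * ∑ s ∈ S, ψ (s⁻¹ * g) with hV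
  have hpt : ∀ g, ∑ s ∈ S, φ s * ψ (s⁻¹ * g) ≤ ∑ j ∈ K, U j g + V g := by
    intro g
    have e1 : ∑ s ∈ S, φ s * ψ (s⁻¹ * g) = ∑ s ∈ T, φ s * ψ (s⁻¹ * g) := by
      rw [hT, Finset.sum_filter]
      refine Finset.sum_congr rfl fun i _ => ?_
      by_cases h : φ i = 0 <;> simp [h]
    rw [e1, ← Finset.sum_filter_add_sum_filter_not T (fun s => lev (φ s) ∈ K)]
    refine add_le_add ?_ ?_
    · rw [← Finset.sum_fiberwise_of_maps_to (s := T.filter (fun s => lev (φ s) ∈ K)) (t := K)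
        (g := fun s => lev (φ s)) (fun i hi => (Finset.mem_filter.1 hi).2)]
      refine Finset.sum_le_sum fun j _ => ?_
      rw [hU]
      simp only
      rw [Finset.mul_sum]
      calc ∑ i ∈ (T.filter (fun s => lev (φ s) ∈ K)).filter (fun i => lev (φ i) = j),
            φ i * ψ (i⁻¹ * g)
          ≤ ∑ i ∈ (T.filter (fun s => lev (φ s) ∈ K)).filter (fun i => lev (φ i) = j),
            (2 : ℝ) ^ (j + 1) * ψ (i⁻¹ * g) := by
            refine Finset.sum_le_sum fun i hi => ?_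
            have h3 := (Finset.mem_filter.1 hi).2
            have h4 : φ i < (2 : ℝ) ^ (lev (φ i) + 1) := lt_lev
            rw [h3] at h4
            exact mul_le_mul_of_nonneg_right h4.le (hψ _)
        _ ≤ ∑ i ∈ SS j, (2 : ℝ) ^ (j + 1) * ψ (i⁻¹ * g) := by
            refine Finset.sum_le_sum_of_subset_of_nonneg ?_
              (fun _ _ _ => mul_nonneg (by positivity) (hψ _))
            intro i hi
            obtain ⟨h1, h2⟩ := Finset.mem_filter.1 hi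
            obtain ⟨h3, _⟩ := Finset.mem_filter.1 h1
            obtain ⟨h4, h5⟩ := Finset.mem_filter.1 h3
            exact Finset.mem_filter.2 ⟨h4, h5, h2⟩
    · rw [hV]
      simp only
      rw [Finset.mul_sum]
      calc ∑ i ∈ T.filter (fun s => ¬ lev (φ s) ∈ K), φ i * ψ (i⁻¹ * g)
          ≤ ∑ i ∈ T.filter (fun s => ¬ lev (φ s) ∈ K), (2 : ℝ) ^ (j0 - M) * ψ (i⁻¹ * g) := by
            refine Finset.sum_le_sum fun i hi => ?_
            obtain ⟨hiT, hiK⟩ := Finset.mem_filter.1 hi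
            have h2 := hlev i hiT
            have h3 : lev (φ i) + 1 ≤ j0 - M := by
              rw [hK, Finset.mem_Icc] at hiK
              by_contra hc
              exact hiK ⟨by omega, h2⟩
            exact mul_le_mul_of_nonneg_right
              (lt_lev.le.trans (zpow_le_zpow_right₀ (by norm_num) h3)) (hψ _)
        _ ≤ ∑ i ∈ S, (2 : ℝ) ^ (j0 - M) * ψ (i⁻¹ * g) := by
            refine Finset.sum_le_sum_of_subset_of_nonneg ?_
              (fun _ _ _ => mul_nonneg (by positivity) (hψ _))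
            exact (Finset.filter_subset _ _).trans (Finset.filter_subset _ _)
  -- squares
  have hU0 : ∀ j g, 0 ≤ U j g := fun j g =>
    mul_nonneg (by positivity) (Finset.sum_nonneg fun _ _ => hψ _)
  have hV0 : ∀ g, 0 ≤ V g := fun g =>
    mul_nonneg (by positivity) (Finset.sum_nonneg fun _ _ => hψ _)
  have hsq : ∀ g, (∑ s ∈ S, φ s * ψ (s⁻¹ * g)) ^ 2 ≤ (M + 2 : ℝ) * (∑ j ∈ K, U j g ^ 2 + V g ^ 2) := by
    intro g
    have h0 : 0 ≤ ∑ s ∈ S, φ s * ψ (s⁻¹ * g) :=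
      Finset.sum_nonneg fun s _ => mul_nonneg (hφ s) (hψ _)
    have h1 := pow_le_pow_left₀ h0 (hpt g) 2
    have h2 := sq_sum_le K (fun j => U j g) (M + 1) hKc.le
    push_cast at h2
    have h3 : 0 ≤ ∑ j ∈ K, U j g := Finset.sum_nonneg fun j _ => hU0 j g
    -- (a+b)^2 ≤ (M+2)(a^2/(M+1) + b^2)
    set a := ∑ j ∈ K, U j g
    set b := V g
    set c := ∑ j ∈ K, U j g ^ 2
    have hc : 0 ≤ c := Finset.sum_nonneg fun _ _ => sq_nonneg _
    -- 2ab ≤ a²/(M+1) + (M+1) b²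
    have hM1 : (0 : ℝ) < M + 1 := by positivity
    have h4 : a ^ 2 / (M + 1) ≤ c := by
      rw [div_le_iff₀ hM1]; linarith
    have h5 : 2 * a * b ≤ a ^ 2 / (M + 1) + (M + 1) * b ^ 2 := by
      have : 0 ≤ (a - (M + 1) * b) ^ 2 / (M + 1) := by positivity
      have h6 : (a - (M + 1) * b) ^ 2 / (M + 1) = a ^ 2 / (M + 1) - 2 * a * b + (M + 1) * b ^ 2 := by
        field_simp
        ring
      linarith
    nlinarith
  -- bounds for level convolutions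
  have hcard : ∀ S' ⊆ S, S'.card ≤ 2 ^ M := fun S' h => (Finset.card_le_card h).trans hM
  have hUb : ∀ j ∈ K, ∑ g ∈ F, U j g ^ 2 ≤
      12 * (M + 3 : ℝ) * A * N * (4 * ∑ s ∈ SS j, φ s ^ 2) := by
    intro j _
    have hsub : SS j ⊆ S := Finset.filter_subset _ _
    have h1 := step1 (SS j) M (hcard _ hsub) A (hA _ hsub) ψ hψ Y hY F
    have h2 : ∑ g ∈ F, U j g ^ 2 = ((2 : ℝ) ^ (j + 1)) ^ 2 *
        ∑ g ∈ F, (∑ s ∈ SS j, ψ (s⁻¹ * g)) ^ 2 := by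
      rw [Finset.mul_sum]
      refine Finset.sum_congr rfl fun g _ => ?_
      rw [hU]; simp only; rw [mul_pow]
    have h3 : ((2 : ℝ) ^ (j + 1)) ^ 2 * (SS j).card ≤ 4 * ∑ s ∈ SS j, φ s ^ 2 := by
      have : ∑ _s ∈ SS j, ((2 : ℝ) ^ j) ^ 2 ≤ ∑ s ∈ SS j, φ s ^ 2 := by
        refine Finset.sum_le_sum fun x hx => ?_
        obtain ⟨_, h2, h3⟩ := Finset.mem_filter.1 hx
        have hpos : 0 < φ x := lt_of_le_of_ne (hφ x) (Ne.symm h2)
        have := lev_le hpos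
        rw [h3] at this
        exact pow_le_pow_left₀ (by positivity) this 2
      rw [Finset.sum_const, nsmul_eq_mul] at this
      rw [zpow_add₀ (by norm_num), zpow_one]
      nlinarith
    rw [h2]
    calc ((2 : ℝ) ^ (j + 1)) ^ 2 * ∑ g ∈ F, (∑ s ∈ SS j, ψ (s⁻¹ * g)) ^ 2
        ≤ ((2 : ℝ) ^ (j + 1)) ^ 2 * (12 * (M + 3 : ℝ) * A * (SS j).card * N) :=
          mul_le_mul_of_nonneg_left h1 (by positivity)
      _ = 12 * (M + 3 : ℝ) * A * N * (((2 : ℝ) ^ (j + 1)) ^ 2 * (SS j).card) := by ring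
      _ ≤ 12 * (M + 3 : ℝ) * A * N * (4 * ∑ s ∈ SS j, φ s ^ 2) :=
          mul_le_mul_of_nonneg_left h3 (by positivity)
  have hs0le : φ s0 ^ 2 ≤ ∑ s ∈ S, φ s ^ 2 :=
    Finset.single_le_sum (f := fun s => φ s ^ 2) (fun _ _ => sq_nonneg _) hs0S
  have hVb : ∑ g ∈ F, V g ^ 2 ≤ 12 * (M + 3 : ℝ) * A * N * ∑ s ∈ S, φ s ^ 2 := by
    have h1 := step1 S M hM A (hA _ (Finset.Subset.refl S)) ψ hψ Y hY F
    have h2 : ∑ g ∈ F, V g ^ 2 = ((2 : ℝ) ^ (j0 - M)) ^ 2 *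
        ∑ g ∈ F, (∑ s ∈ S, ψ (s⁻¹ * g)) ^ 2 := by
      rw [Finset.mul_sum]
      refine Finset.sum_congr rfl fun g _ => ?_
      rw [hV]; simp only; rw [mul_pow]
    have h3 : ((2 : ℝ) ^ (j0 - M)) ^ 2 * S.card ≤ ∑ s ∈ S, φ s ^ 2 := by
      have h4 : (S.card : ℝ) ≤ (2 : ℝ) ^ (M : ℤ) := by
        rw [zpow_natCast]; exact_mod_cast hM
      have h5 : (2 : ℝ) ^ (j0 - M) * (2 : ℝ) ^ (M : ℤ) = (2 : ℝ) ^ j0 := by
        rw [← zpow_add₀ (by norm_num)]; congr 1; ring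
      have h6 : (2 : ℝ) ^ (j0 - M) ≤ (2 : ℝ) ^ j0 :=
        zpow_le_zpow_right₀ (by norm_num) (by omega)
      have h7 := lev_le hs0p
      have h8 : (0 : ℝ) < (2 : ℝ) ^ (j0 - M) := by positivity
      have h9 : (0 : ℝ) < (2 : ℝ) ^ j0 := by positivity
      calc ((2 : ℝ) ^ (j0 - M)) ^ 2 * S.card
          ≤ ((2 : ℝ) ^ (j0 - M)) ^ 2 * (2 : ℝ) ^ (M : ℤ) := by gcongr
        _ = (2 : ℝ) ^ (j0 - M) * ((2 : ℝ) ^ (j0 - M) * (2 : ℝ) ^ (M : ℤ)) := by ring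
        _ = (2 : ℝ) ^ (j0 - M) * (2 : ℝ) ^ j0 := by rw [h5]
        _ ≤ (2 : ℝ) ^ j0 * (2 : ℝ) ^ j0 := by gcongr
        _ = ((2 : ℝ) ^ j0) ^ 2 := by ring
        _ ≤ φ s0 ^ 2 := pow_le_pow_left₀ h9.le h7 2
        _ ≤ _ := hs0le
    rw [h2]
    calc ((2 : ℝ) ^ (j0 - M)) ^ 2 * ∑ g ∈ F, (∑ s ∈ S, ψ (s⁻¹ * g)) ^ 2
        ≤ ((2 : ℝ) ^ (j0 - M)) ^ 2 * (12 * (M + 3 : ℝ) * A * S.card * N) :=
          mul_le_mul_of_nonneg_left h1 (by positivity)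
      _ = 12 * (M + 3 : ℝ) * A * N * (((2 : ℝ) ^ (j0 - M)) ^ 2 * S.card) := by ring
      _ ≤ 12 * (M + 3 : ℝ) * A * N * ∑ s ∈ S, φ s ^ 2 :=
          mul_le_mul_of_nonneg_left h3 (by positivity)
  have hfib : ∑ j ∈ K, ∑ s ∈ SS j, φ s ^ 2 ≤ ∑ s ∈ S, φ s ^ 2 := by
    have h1 : ∑ j ∈ K, ∑ s ∈ SS j, φ s ^ 2 =
        ∑ s ∈ T.filter (fun s => lev (φ s) ∈ K), φ s ^ 2 := by
      rw [← Finset.sum_fiberwise_of_maps_to (s := T.filter (fun s => lev (φ s) ∈ K)) (t := K)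
        (g := fun s => lev (φ s)) (fun i hi => (Finset.mem_filter.1 hi).2)]
      refine Finset.sum_congr rfl fun j hj => ?_
      refine Finset.sum_congr ?_ fun _ _ => rfl
      ext i
      simp only [hSS, hT, Finset.mem_filter]
      constructor
      · rintro ⟨h1, h2, h3⟩
        exact ⟨⟨⟨h1, h2⟩, by rw [h3]; exact hj⟩, h3⟩
      · rintro ⟨⟨⟨h1, h2⟩, _⟩, h4⟩
        exact ⟨h1, h2, h4⟩
    rw [h1]
    exact Finset.sum_le_sum_of_subset_of_nonneg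
      ((Finset.filter_subset _ _).trans (Finset.filter_subset _ _)) (fun _ _ _ => sq_nonneg _)
  have hc0 : 0 ≤ 12 * (M + 3 : ℝ) * A * N := by positivity
  calc ∑ g ∈ F, (∑ s ∈ S, φ s * ψ (s⁻¹ * g)) ^ 2
      ≤ ∑ g ∈ F, (M + 2 : ℝ) * (∑ j ∈ K, U j g ^ 2 + V g ^ 2) := Finset.sum_le_sum fun g _ => hsq g
    _ = (M + 2 : ℝ) * (∑ j ∈ K, ∑ g ∈ F, U j g ^ 2 + ∑ g ∈ F, V g ^ 2) := by
        rw [← Finset.mul_sum, Finset.sum_add_distrib, Finset.sum_comm]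
    _ ≤ (M + 2 : ℝ) * (∑ j ∈ K, 12 * (M + 3 : ℝ) * A * N * (4 * ∑ s ∈ SS j, φ s ^ 2) +
          12 * (M + 3 : ℝ) * A * N * ∑ s ∈ S, φ s ^ 2) := by
        refine mul_le_mul_of_nonneg_left ?_ (by positivity)
        exact add_le_add (Finset.sum_le_sum hUb) hVb
    _ = (M + 2 : ℝ) * (12 * (M + 3 : ℝ) * A * N) *
          (4 * ∑ j ∈ K, ∑ s ∈ SS j, φ s ^ 2 + ∑ s ∈ S, φ s ^ 2) := by
        rw [← Finset.mul_sum, ← Finset.mul_sum]; ring
    _ ≤ (M + 2 : ℝ) * (12 * (M + 3 : ℝ) * A * N) *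
          (4 * ∑ s ∈ S, φ s ^ 2 + ∑ s ∈ S, φ s ^ 2) := by
        refine mul_le_mul_of_nonneg_left (by linarith) (by positivity)
    _ = 60 * (M + 2 : ℝ) * (M + 3 : ℝ) * A * (∑ s ∈ S, φ s ^ 2) * N := by ring

end Pool.Agent.H808R3.RD
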