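import Pool.Agent.H808R3.RD.Fin

set_option autoImplicit false

namespace Pool.Agent.H808R3.RD

open Finset

variable {G : Type} [Group G]

def lenSet (T : Finset G) (g : G) : Set ℕ :=
  {n : ℕ | ∃ l : List G, (∀ x ∈ l, x ∈ T ∨ x⁻¹ ∈ T) ∧ l.prod = g ∧ l.length = n}

lemma wordLen_eq (T : Finset G) (g : G) : wordLen T g = ((sInf (lenSet T g) : ℕ) : ℝ) := rfl

lemma lenSet_nonempty (T : Finset G) (hT : Subgroup.closure (T : Set G) = ⊤) (g : G) :
    (lenSet T g).Nonempty := by
  have hg : g ∈ Subgroup.closure (T : Set G) := by rw [hT]; trivial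
  rw [← Subgroup.mem_toSubmonoid, Subgroup.closure_toSubmonoid] at hg
  obtain ⟨l, h1, h2⟩ := Submonoid.exists_list_of_mem_closure hg
  exact ⟨l.length, l, fun x hx => by simpa using h1 x hx, h2, rfl⟩

lemma inv_mem_lenSet (T : Finset G) (g : G) (n : ℕ) (h : n ∈ lenSet T g) : n ∈ lenSet T g⁻¹ := by
  obtain ⟨l, h1, h2, h3⟩ := h
  refine ⟨(l.map (fun x => x⁻¹)).reverse, ?_, ?_, by simpa using h3⟩
  · intro x hx
    rw [List.mem_reverse, List.mem_map] at hx
    obtain ⟨y, hy, rfl⟩ := hx
    rcases h1 y hy with h | h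
    · right; simpa using h
    · left; exact h
  · rw [← h2, List.prod_inv_reverse]

lemma isLength_wordLen (T : Finset G) (hT : Subgroup.closure (T : Set G) = ⊤) :
    IsLength (wordLen T) where
  nonneg g := by rw [wordLen_eq]; positivity
  one := by
    rw [wordLen_eq]
    have : (0 : ℕ) ∈ lenSet T 1 := ⟨[], by simp, by simp, by simp⟩
    have h := Nat.sInf_le this
    have h2 : sInf (lenSet T (1 : G)) = 0 := by omega
    rw [h2]; norm_num
  inv g := by
    rw [wordLen_eq, wordLen_eq]
    have : lenSet T g⁻¹ = lenSet T g := by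
      ext n
      constructor
      · intro h
        have := inv_mem_lenSet T _ n h
        rwa [inv_inv] at this
      · exact inv_mem_lenSet T g n
    rw [this]
  mul_le g h := by
    rw [wordLen_eq, wordLen_eq, wordLen_eq]
    obtain ⟨l, h1, h2, h3⟩ := Nat.sInf_mem (lenSet_nonempty T hT g)
    obtain ⟨l', h1', h2', h3'⟩ := Nat.sInf_mem (lenSet_nonempty T hT h)
    have : sInf (lenSet T g) + sInf (lenSet T h) ∈ lenSet T (g * h) := by
      refine ⟨l ++ l', ?_, ?_, ?_⟩
      · intro x hx
        rcases List.mem_append.1 hx with h | h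
        · exact h1 x h
        · exact h1' x h
      · rw [List.prod_append, h2, h2']
      · rw [List.length_append, h3, h3']
    exact_mod_cast Nat.sInf_le this

open scoped Pointwise in
lemma growth_wordLen (T : Finset G) (hT : Subgroup.closure (T : Set G) = ⊤) :
    ExpPolyGrowth (wordLen T) := by
  classical
  set U : Finset G := insert 1 (T ∪ T.image (fun x => x⁻¹)) with hU
  have h1U : (1 : G) ∈ U := Finset.mem_insert_self _ _
  have hTU : ∀ x : G, (x ∈ T ∨ x⁻¹ ∈ T) → x ∈ U := by
    intro x hx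
    refine Finset.mem_insert_of_mem (Finset.mem_union.2 ?_)
    rcases hx with h | h
    · exact Or.inl h
    · exact Or.inr (Finset.mem_image.2 ⟨x⁻¹, h, by simp⟩)
  have hlist : ∀ l : List G, (∀ x ∈ l, x ∈ T ∨ x⁻¹ ∈ T) → l.prod ∈ U ^ l.length := by
    intro l
    induction l with
    | nil => intro _; simp
    | cons a l ih =>
      intro h
      rw [List.prod_cons, List.length_cons, pow_succ']
      exact Finset.mul_mem_mul (hTU a (h a (by simp))) (ih fun x hx => h x (by simp [hx]))
  have hUc : (1 : ℝ) ≤ U.card := by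
    have : 0 < U.card := Finset.card_pos.2 ⟨1, h1U⟩
    exact_mod_cast this
  refine ⟨Polynomial.C (Real.log U.card) * Polynomial.X, fun r hr => ?_⟩
  have hsub : ball (wordLen T) r ⊆ ((U ^ ⌊r⌋₊ : Finset G) : Set G) := by
    intro g hg
    have hg' : ((sInf (lenSet T g) : ℕ) : ℝ) ≤ r := hg
    obtain ⟨l, h1, h2, h3⟩ := Nat.sInf_mem (lenSet_nonempty T hT g)
    have h4 : l.length ≤ ⌊r⌋₊ := by
      rw [h3]; exact Nat.le_floor hg'
    have h5 := hlist l h1
    rw [h2] at h5
    exact Finset.pow_subset_pow_right h1U h4 h5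
  refine ⟨(Finset.finite_toSet _).subset hsub, ?_⟩
  have h1 : (ball (wordLen T) r).ncard ≤ (U ^ ⌊r⌋₊).card := by
    have := Set.ncard_le_ncard hsub (Finset.finite_toSet _)
    rwa [Set.ncard_coe_finset] at this
  have h2 : (U ^ ⌊r⌋₊).card ≤ U.card ^ ⌊r⌋₊ := Finset.card_pow_le
  have h3 : ((ball (wordLen T) r).ncard : ℝ) ≤ (U.card : ℝ) ^ ⌊r⌋₊ := by
    exact_mod_cast h1.trans h2
  refine h3.trans ?_
  simp only [Polynomial.eval_mul, Polynomial.eval_C, Polynomial.eval_X]
  have hpos : (0 : ℝ) < U.card := by linarith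
  rw [Real.exp_mul, Real.exp_log hpos, ← Real.rpow_natCast]
  exact Real.rpow_le_rpow_of_exponent_le hUc (Nat.floor_le hr.le)

end Pool.Agent.H808R3.RD
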